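import Pool.Agent.Results.MP_ec4e4b_nt.AllTwistsX15

/-!
# The 2-adic Abel–Jacobi maps of fixed non-CM curves over varying multiquadratic fields: exact positive
# proportions and 100 percent

`E_M : y² = x³ - 12987 M² x - 263466 M³` is the quadratic twist by `M` of `X_0(15)`, an elliptic curve without
complex multiplication, and `Cls` is the set of ALL the squarefree numbers `D ≡ 1` or `49` modulo `60`, with
no condition on the prime factors: a set of positive density `5 / (16 π²)`. Let `k = ℚ(√d_1, …, √d_n)` be a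
field of degree `2ⁿ`. The pair `(M, d)` is good if all the `2ⁿ` numbers `M ∏_{i ∈ T} d_i` are up to squares
numbers `D ≠ 1` of the class with `E_D(ℚ)` finite and `Ш(E_D/ℚ)[2] = 0`. Let `c = ∏_{i ≥ 1} (1 - 2^{-i}) = 0.2887...`.
The motive `h¹(E_M)(1)` over `K` has the Chow group `E_M(K) ⊗ ℚ` and the realization `V_2(E_M)`, and its 2-adic
Abel–Jacobi map is the Kummer map `E_M(K) ⊗ ℚ_2 → H¹_f(K, V_2(E_M))`.

* If `(M, d)` is good, then `E_M(k) ⊗ ℚ_2 = 0` and `H¹_f(k, V_2(E_M)) = 0`: the Abel–Jacobi map of `h¹(E_M)(1)` over `k`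
  is an isomorphism onto the Bloch–Kato Selmer group.
* Fixed curves, varying fields: let `𝒩` be a finite nonempty set of numbers `M` for which `(M, d)` is good, the
  `E_M`, `M ∈ 𝒩`, not isomorphic over `k`. For exactly the proportion `c ^ (|𝒩| 2ⁿ)` of the `D` of the class
  the same holds over `k(√D)`; for these `D`, so for at least `(5 c ^ (|𝒩| 2ⁿ) / (16 π²) - ε) X` of the numbers
  `D ≤ X`, both groups are zero for all the `E_M`, `M ∈ 𝒩`, over the field `k(√D)` of degree `2ⁿ⁺¹`.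
* 100 percent: let `M_0, M_1, …` be a sequence such that all the `(M_j, d)` are good and the fixed curves `E_{M_j}`
  are pairwise not isomorphic over `k`, and let `ψ(D) → ∞` as slowly as we please. For 100 percent of the `D`
  of the class both groups are zero for one of the curves `E_{M_j}`, `j < ψ(D)`, over `k(√D)`.

`H1f 2 W` (`Pool.Agent.Y667.BKP.H1f`, a starting file by helper667) is the group of the classes of the continuous
cocycles of the absolute Galois group with values in `V_2 W = T_2 W ⊗ ℚ_2` whose restriction to the completion at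
every place is in the image of the Kummer map; this is the condition of Bloch and Kato.

The laws for families and sequences of twists are by helper382 (`Pool/Agent/Helper382_X15`), the joint law is in
`Pool/Agent/H735X` (helper735), the single curve is the project X15 of helper757.
-/

set_option autoImplicit false

open NumberField IsDedekindDomain Filter Topology

namespace Pool.Agent.Results.MP_009fd8_ag.VaryingFieldsX15

open Pool.Agent.Results.MP_50bb2e_nt.MultiquadraticX15 (Cls UpTo InCls Ind RankZeroShaTwo GoodPair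
  IsMultiquadratic c num)
open Pool.Agent.Helper382_X15 (Curve)
open Pool.Agent.Results.MP_78d38b_nt.AllTwistsX15 (NonIso)
open Pool.Agent.Y667.BKP (H1f)

open scoped Classical in
/-- `W` is an elliptic curve, and `W(K) ⊗ ℚ_2` and `H¹_f(K, V_2 W)` are zero; in particular the Kummer map from
the first group to the second one is an isomorphism. -/
def BothZero {K : Type} [Field K] [NumberField K] (W : WeierstrassCurve K) : Prop :=
  W.IsElliptic ∧ (∀ x : TensorProduct ℤ W.toAffine.Point ℚ_[2], x = 0) ∧ ∀ x : H1f 2 W, x = 0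

/-- the field `ℚ(√d_1, …, √d_n)` has degree `2ⁿ`, all pairs `(M, d)`, `M ∈ 𝒩`, are good, and the curves
`E_M`, `M ∈ 𝒩`, are not isomorphic over the field -/
def Good {n : ℕ} (𝒩 : Finset ℤ) (d : Fin n → ℤ) : Prop :=
  Ind d ∧ (∀ M ∈ 𝒩, GoodPair M d) ∧ NonIso 𝒩 d

/-- both groups are zero over the field `ℚ(√d_1, …, √d_n)`, which has degree `2ⁿ` -/
def Holds {n : ℕ} (M : ℤ) (d : Fin n → ℤ) : Prop :=
  ∀ (K : Type) [Field K] [NumberField K], IsMultiquadratic d K →
    Module.finrank ℚ K = 2 ^ n ∧ BothZero (Curve K M)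

theorem tensor_zero {G : Type} [AddCommGroup G] (h : Finite G) (x : TensorProduct ℤ G ℚ_[2]) :
    x = 0 := by
  induction x with
  | zero => rfl
  | add a b ha hb => rw [ha, hb, add_zero]
  | tmul g y =>
    have hN : ((Nat.card G : ℤ) : ℚ_[2]) ≠ 0 := by
      have : Nat.card G ≠ 0 := Nat.card_pos.ne'
      exact_mod_cast this
    have e1 : y = (Nat.card G : ℤ) • (((Nat.card G : ℤ) : ℚ_[2])⁻¹ * y) := by
      rw [zsmul_eq_mul, ← mul_assoc, mul_inv_cancel₀ hN, one_mul]
    rw [e1, ← TensorProduct.smul_tmul, natCast_zsmul, card_nsmul_eq_zero', TensorProduct.zero_tmul]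

open scoped Classical in
theorem bothZero {n : ℕ} {d : Fin n → ℤ} {M : ℤ} (hd : Ind d) (h : GoodPair M d) : Holds M d := by
  intro K _ _ hK
  obtain ⟨-, -, -, h4, -⟩ :=
    Pool.Agent.Results.MP_78d38b_nt.AllTwistsX15.shaZero hd h K hK
  obtain ⟨h1, h5, -, -, h7⟩ :=
    Pool.Agent.Results.MP_ec4e4b_nt.AllTwistsX15.formula hd h K hK
  exact ⟨h1, h5, fun x => tensor_zero h4 x, h7⟩

/-- **The Abel–Jacobi maps of fixed curves over varying fields.** -/
theorem result :
    (∀ (n : ℕ) (M : ℤ) (d : Fin n → ℤ), Ind d → GoodPair M d → Holds M d) ∧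
    (∀ (n : ℕ) (𝒩 : Finset ℤ) (d : Fin n → ℤ), 𝒩.Nonempty → Good 𝒩 d →
      Tendsto (fun X : ℕ => (num (fun D => Good 𝒩 (Fin.snoc d (D : ℤ) : Fin (n + 1) → ℤ)) X : ℝ) /
        (num (fun _ => True) X : ℝ)) atTop (𝓝 (c ^ (𝒩.card * 2 ^ n))) ∧
      ∀ ε : ℝ, 0 < ε → ∀ᶠ X : ℕ in atTop,
        (5 / (16 * Real.pi ^ 2) * c ^ (𝒩.card * 2 ^ n) - ε) * X ≤
        (num (fun D => ∀ M ∈ 𝒩, Holds M (Fin.snoc d (D : ℤ) : Fin (n + 1) → ℤ)) X : ℝ)) ∧
    (∀ (n : ℕ) (d : Fin n → ℤ) (M : ℕ → ℤ), Ind d → (∀ j, GoodPair (M j) d) →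
      (∀ j j', j ≠ j' → ∀ T : Finset (Fin n), ¬ IsSquare (M j * M j' * ∏ i ∈ T, d i)) →
      ∀ ψ : ℕ → ℕ, Tendsto ψ atTop atTop →
        Tendsto (fun X : ℕ => (num (fun D => ∃ j < ψ D,
          Ind (Fin.snoc d (D : ℤ) : Fin (n + 1) → ℤ) ∧
          Holds (M j) (Fin.snoc d (D : ℤ) : Fin (n + 1) → ℤ)) X : ℝ) /
          (num (fun _ => True) X : ℝ)) atTop (𝓝 1)) ∧
    Tendsto (fun X : ℕ => (num (fun _ => True) X : ℝ) / X) atTop (𝓝 (5 / (16 * Real.pi ^ 2))) ∧
    0.2887 < c ∧ c < 0.2888 := by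
  obtain ⟨-, -, -, g2, g3⟩ := Pool.Agent.Results.MP_50bb2e_nt.MultiquadraticX15.result
  refine ⟨fun n M d hd h => bothZero hd h, fun n 𝒩 d h𝒩 h => ?_,
    fun n d M hd hM hne ψ hψ => ?_,
    Pool.Agent.Helper382_X15.num_dens, g2, g3⟩
  · have h1 := Pool.Agent.Helper382_X15.prop_fam (𝒩 := 𝒩) (d := d) h h𝒩
    exact ⟨h1, fun ε hε => (Pool.Agent.Helper382_X15.low
      (fun D _ h M hM => bothZero h.1 (h.2.1 M hM)) h1 hε).2⟩
  · have h1 := Pool.Agent.Helper382_X15.seq_almost_field hd M hM hne (by linarith) (by linarith) hψ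
    refine Pool.Agent.Helper382_X15.almost_mono ∅ (fun D _ _ h => ?_) h1
    obtain ⟨hI, j, hj, hg⟩ := h
    exact ⟨j, hj, hI, bothZero hI hg⟩

end Pool.Agent.Results.MP_009fd8_ag.VaryingFieldsX15
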